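import Pool.Agent.R953.UF

/-!
# Edge marginals of uniform connected subgraphs of fixed excess are not monotone

There is a connected graph on `10` vertices with `15` edges (a necklace of three triangles, one
diamond and the edge `e = {0, 4}`) in which the edge `e` belongs to a uniform spanning tree
(excess `-1`) with probability `648/864 = 3/4` and to a uniform connected unicyclic spanning
subgraph (excess `0`) with the smaller probability `1044/1395 = 116/155`.
-/

set_option autoImplicit false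

open SimpleGraph

namespace Pool.Agent.Results.MP_7fb2f0_pr.UnicyclicBelowTree

open Pool.Agent.R953.UF

/-- The set `𝒞^(k)(G)` of the connected spanning subgraphs `H` of `G` with excess
`|E(H)| - |V| = k`. -/
def connSub {V : Type*} (G : SimpleGraph V) (k : ℤ) : Set (SimpleGraph V) :=
  {H | H ≤ G ∧ H.Connected ∧ (H.edgeSet.ncard : ℤ) - (Nat.card V : ℤ) = k}

/-- `p_e(k)`: the probability that the edge `e` belongs to a uniformly random connected spanning
subgraph of `G` with excess `k`. -/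
noncomputable def prob {V : Type*} (G : SimpleGraph V) (k : ℤ) (e : Sym2 V) : ℝ :=
  ({H | H ∈ connSub G k ∧ e ∈ H.edgeSet}.ncard : ℝ) / ((connSub G k).ncard : ℝ)

/-- the edges other than `{0, 4}` -/
def es : List (Fin 10 × Fin 10) :=
  [(0, 1), (0, 6), (1, 6), (1, 2), (1, 7), (2, 7), (2, 3), (2, 8), (3, 8), (3, 5), (3, 9), (5, 9),
    (4, 5), (4, 9)]

/-- the graph -/
def G : SimpleGraph (Fin 10) := gr (((0, 4) : Fin 10 × Fin 10) :: es)

lemma ok : Ok (⊥ : SimpleGraph (Fin 10)) ((0, 4) :: es) := by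
  apply ok_bot <;> decide

lemma connSub_eq (j : ℕ) (k : ℤ) (hk : (j : ℤ) = 10 + k) :
    connSub G k = {H | H ≤ G ∧ ConP j H} := by
  ext H
  simp only [connSub, ConP, Set.mem_ofPred_eq, Nat.card_fin]
  constructor
  · rintro ⟨h1, h2, h3⟩
    push_cast at h3
    exact ⟨h1, h2, by omega⟩
  · rintro ⟨h1, h2, h3⟩
    refine ⟨h1, h2, ?_⟩
    push_cast
    omega

lemma count_with (j : ℕ) :
    {H : SimpleGraph (Fin 10) | (H ≤ G ∧ ConP (j + 1) H) ∧ s(0, 4) ∈ H.edgeSet}.ncard =
      cntC es (mrg (List.range 10) 0 4) 9 j := by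
  have h1 := cntC_spec es (⊥ ⊔ edge 0 4) (mrg (List.range 10) 0 4) 9 j (ok.2.2.2.sup ok.2.2.1)
    (rep_edge (0, 4) (by decide))
  rw [ncard_edge_sup _ _ _ (by decide) (by simp)] at h1
  rw [← h1]
  congr 1
  ext H
  have h2 : ((⊥ : SimpleGraph (Fin 10)).edgeSet.ncard + 1 + j) = j + 1 := by
    simp; omega
  rw [h2]
  have := mem_edge_iff ok H
  simp only [G, Set.mem_ofPred_eq] at this ⊢
  rw [← this]
  tauto

lemma count_all (j : ℕ) :
    {H : SimpleGraph (Fin 10) | H ≤ G ∧ ConP (j + 1) H}.ncard =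
      cntC es (List.range 10) 10 (j + 1) + cntC es (mrg (List.range 10) 0 4) 9 j := by
  have h1 := cntC_spec es ⊥ (List.range 10) 10 (j + 1) ok.2.2.2 (Rep.bot 10)
  have h2 := cntC_spec es (⊥ ⊔ edge 0 4) (mrg (List.range 10) 0 4) 9 j (ok.2.2.2.sup ok.2.2.1)
    (rep_edge (0, 4) (by decide))
  rw [ncard_edge_sup _ _ _ (by decide) (by simp)] at h2
  have e0 : (⊥ : SimpleGraph (Fin 10)).edgeSet.ncard = 0 := by simp
  rw [e0] at h1 h2
  rw [zero_add] at h1
  rw [show 0 + 1 + j = j + 1 by omega] at h2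
  have h3 := ncard_cons ok (ConP (j + 1))
  rw [← h1, ← h2]
  refine Eq.trans ?_ h3
  congr 1
  ext H
  simp only [G, Set.mem_ofPred_eq, le_gr_iff]

lemma c1 : cntC es (mrg (List.range 10) 0 4) 9 8 = 648 := by decide +kernel
lemma c2 : cntC es (mrg (List.range 10) 0 4) 9 9 = 1044 := by decide +kernel
lemma c3 : cntC es (List.range 10) 10 9 = 216 := by decide +kernel
lemma c4 : cntC es (List.range 10) 10 10 = 351 := by decide +kernel

lemma conn : G.Connected := by
  have h := count_all 8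
  rw [c1, c3] at h
  have h1 : {H : SimpleGraph (Fin 10) | H ≤ G ∧ ConP (8 + 1) H}.Nonempty := by
    rw [Set.nonempty_iff_ne_empty]
    intro h2
    rw [h2, Set.ncard_empty] at h
    omega
  obtain ⟨H, h2, h3, -⟩ := h1
  exact h3.mono h2

lemma card_edges : G.edgeSet.ncard = 15 := by
  have : G.edgeSet = ((((((0, 4) : Fin 10 × Fin 10) :: es).map (fun f => s(f.1, f.2))).toFinset :
      Finset (Sym2 (Fin 10))) : Set (Sym2 (Fin 10))) := by
    ext x
    induction x using Sym2.ind with | _ u v => ?_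
    rw [mem_edgeSet, G, gr_adj]
    simp only [List.coe_toFinset, List.mem_map, Set.mem_ofPred_eq]
    constructor
    · rintro ⟨f, h1, h2, -⟩
      exact ⟨f, h1, h2⟩
    · rintro ⟨f, h1, h2⟩
      have h3 : ∀ f ∈ (((0, 4) : Fin 10 × Fin 10) :: es), f.1 ≠ f.2 := by decide
      exact ⟨f, h1, h2, h3 f h1⟩
  rw [this, Set.ncard_coe_finset]
  decide

/-- **Theorem.** There are a connected graph `G` with `10` vertices and `15` edges and an edge `e`
of `G` with `p_e(-1) = 3/4 > 116/155 = p_e(0)`. So the map `k ↦ p_e(k)` need not be nondecreasing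
on `{-1, 0, ..., |E| - |V|}`. -/
theorem result : ∃ (G : SimpleGraph (Fin 10)) (e : Sym2 (Fin 10)), G.Connected ∧ e ∈ G.edgeSet ∧
    G.edgeSet.ncard = 15 ∧ prob G (-1) e = 3 / 4 ∧ prob G 0 e = 116 / 155 ∧
    prob G 0 e < prob G (-1) e := by
  have h1 : prob G (-1) s(0, 4) = 3 / 4 := by
    unfold prob
    rw [connSub_eq 9 (-1) (by norm_num)]
    have h3 := count_with 8
    have h4 := count_all 8
    rw [c1] at h3
    rw [c1, c3] at h4
    simp only [Set.mem_ofPred_eq]
    rw [show 8 + 1 = 9 from rfl] at h3 h4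
    rw [h3, h4]
    norm_num
  have h2 : prob G 0 s(0, 4) = 116 / 155 := by
    unfold prob
    rw [connSub_eq 10 0 (by norm_num)]
    have h3 := count_with 9
    have h4 := count_all 9
    rw [c2] at h3
    rw [c2, c4] at h4
    simp only [Set.mem_ofPred_eq]
    rw [show 9 + 1 = 10 from rfl] at h3 h4
    rw [h3, h4]
    norm_num
  refine ⟨G, s(0, 4), conn, ?_, card_edges, h1, h2, ?_⟩
  · rw [mem_edgeSet, G, gr_adj]
    exact ⟨(0, 4), List.mem_cons_self, rfl, by decide⟩
  · rw [h1, h2]
    norm_num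

end Pool.Agent.Results.MP_7fb2f0_pr.UnicyclicBelowTree
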